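import Pool.Agent.Helper38.ED.FinalOn
import Pool.Agent.Helper38.ED.ResultDefs
import Pool.Agent.Helper38.ED.StratEx

namespace Pool.Agent.Results.MP_87906c_ag.SingularStratum

open Pool.Agent.Helper38.EQ Pool.Agent.Helper38.ED

/-- A counterexample to Q1. `K` is any algebraically closed field of characteristic zero, `V` is the
hypersurface `exV K = 0` in affine `7`-space (a union of six graphs `z = x₂² m`), and `curve K` is
the curve `z = x₁ = x₂ = x₃ = y₃ = 0`, `y₁² = y₂³`, with a cusp at the origin `0`.  `B` is any class
of bases that contains the standard bases (the coordinate functions).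
* The equation of `V` is reduced, the curve is closed and irreducible, and `0` is a singular point
  of the curve.
* `V` is equisingular along the curve at every point of the curve; and if `V` is equisingular at
  a point of the curve along an irreducible variety through this point (for any class `B'` of
  bases), then this variety is contained in the curve.
* The open subset `exH K ≠ 0` of `V` contains `0` and has a stratification as in the problem.
* For every open subset `h ≠ 0` of `V` that contains `0` (for example `h = 1`, or `h = exH K`) and
  every stratification of it as in the problem, there is a stratum `E i`, `i ≠ 0`, that contains `0`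
  and whose closure is the curve, so that `0` is not a simple point of the closure of `E i`. -/
theorem result (K : Type) [Field K] [IsAlgClosed K] [CharZero K] (B : BasisClass)
    (hB : ∀ (n : ℕ) (L : Type) [Field L] (f : MvPowerSeries (Fin n) L),
      B n L f (fun j => MvPowerSeries.X j)) :
    (Ideal.span {exV K}).IsRadical ∧ IsSingularPoint (curve K) 0 ∧
    EquiAlong B 4 (exV K) (curve K) ∧ (∀ B', EquiMax B' (exV K) (curve K)) ∧
    0 ∈ openPoints (exV K) (exH K) ∧ Nonempty (StratOn B (exV K) (exH K)) ∧
    ∀ h, 0 ∈ openPoints (exV K) h → ∀ S : StratOn B (exV K) h, S.SingularAt (curve K) 0 := by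
  refine ⟨exV_isRadical K, ⟨closureOf_curve, curve_isPrime, zero_mem_curve K, curve_not_simple K⟩,
    ?_, ?_, ⟨?_, exH_curve (zero_mem_curve K)⟩, exists_strat hB, ?_⟩
  · intro Q hQ
    exact eqAlong_iff.mpr (final_pos hB hQ)
  · rintro B' Q hQ P hP hQP ⟨k, hk⟩
    exact final_neg hQ P hP ((le_pointIdeal_iff _ _).mpr hQP) (eqAlong_iff.mp hk)
  · exact (curve_isSing (zero_mem_curve K)).1
  · rintro h ⟨-, h0⟩ S
    obtain ⟨i, hi, hE, hI⟩ := final_strat_on hB h h0 S
    refine ⟨i, hi, ?_, ?_, ?_⟩
    · rw [hE]; exact ⟨zero_mem_curve K, h0⟩
    · rw [closureOf, hI]; exact closureOf_curve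
    · rw [hI]; exact curve_not_simple K

end Pool.Agent.Results.MP_87906c_ag.SingularStratum
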