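import Pool.Agent.Helper38.EQS.Main

namespace Pool.Agent.Results.MP_87906c_ag.SmallCodim

open Pool.Agent.Helper38.EQS

/-- `V` is the affine hypersurface `f = 0` in affine `n`-space over the algebraically closed field
`K` of characteristic zero, and `B` is the class of the bases that are allowed in the definition of
equisingularity.
First part: `M = V(P)` is any irreducible subvariety of `V` through `Q` along which `V` is
equisingular at `Q`.  Then the multiplicity of `V` at every point of `M` is at least that at `Q`;
and `Q` is a simple point of `M` if `M` is an irreducible component of the locus of the points of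
multiplicity at least `μ` for some `μ` (for `μ = 2`: of the singular locus of `V`), or if the number
`k` of the critical varieties in the recursion is at least the codimension of `M` in `V`.
Second part: for every stratification of `V` as in the problem, a point `Q` of a stratum `E i` is a
simple point of the closure of `E i` if this closure has codimension at most three in `V`, or if `V`
has dimension at most four, or if at most two critical varieties occur in the recursion at `Q`. -/
theorem result {K : Type} [Field K] [IsAlgClosed K] [CharZero K] {n : ℕ} (B : BasisClass)
    (f : MvPolynomial (Fin n) K) :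
    (∀ (Q : Fin n → K) (P : Ideal (MvPolynomial (Fin n) K)), P.IsPrime → f ∈ P →
      Q ∈ MvPolynomial.zeroLocus K P → (∃ k, EqAlong B k f Q P) →
      (∀ m, MultGe f m Q → ∀ R ∈ MvPolynomial.zeroLocus K P, MultGe f m R) ∧
      (∀ μ, IsComponent P {R | MultGe f μ R} → IsSimple P Q) ∧
      (∀ k, EqAlong B k f Q P → P.height ≤ k + 1 → IsSimple P Q)) ∧
    (∀ (S : Stratification B f) (i : Fin (S.N + 1)), i ≠ 0 → ∀ Q ∈ S.E i,
      ((idealOf (S.E i)).height ≤ 4 → IsSimple (idealOf (S.E i)) Q) ∧
      (n ≤ 5 → IsSimple (idealOf (S.E i)) Q) ∧
      (∀ k ≤ 2, EqAlong B k f Q (idealOf (S.E i)) → IsSimple (idealOf (S.E i)) Q)) :=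
  main B f

end Pool.Agent.Results.MP_87906c_ag.SmallCodim
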